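import Pool.Agent.Q17.RB.Wgg

/-!
# Alperin's weight conjecture and blocks stable under all Galois automorphisms

Blocks are given by their sets of irreducible characters and a valuation ring `O` of `ℂ` containing
`p` in its maximal ideal; `IsBlock` and `IsDefectGroup` are from `Pool.Agent.H254R3.IN.Defs`.

From `Pool.Agent.Q17.DC.Stm4`: `lB p B` is the dimension of the space spanned by the restrictions to
the `p`-regular elements of the characters in `B` (the rank of the decomposition matrix, the number
`l(B)` of irreducible Brauer characters in `B`); `IsWt p O B Q φ` says that `(Q, φ)` is a weight of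
`B` (`Q` is a `p`-subgroup and `φ` an irreducible character of `N_G(Q)/Q` of defect zero in a block
which induces `B`), and `nW p O B` is the number of the conjugacy classes of the weights of `B`.
-/

set_option autoImplicit false

open scoped Classical

namespace Pool.Agent.Results.MP_78bba1_al.RationalBlocks

open Pool.Agent.H254R3.IN (IsBlock IsDefectGroup)
open Pool.Agent.Q17.DC (lB nW)

/-- the block `B` is stable under all automorphisms of `ℂ` -/
def IsRational {G : Type} (B : Set (G → ℂ)) : Prop :=
  ∀ s : ℂ ≃+* ℂ, ∀ χ : G → ℂ, χ ∈ B ↔ (fun g => s (χ g)) ∈ B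

/-- the wreath product of `G` with the group `A` in its regular action -/
abbrev WreathRegular (G : Type) [Group G] (A : Type) [Group A] : Type :=
  (A → G) ⋊[mulAutArrow (G := A) (A := A) (M := G)] A

/-- **Theorem.** Let `p` be a prime.
(1) For every `p`-block `B` of a finite group `G` there are a finite abelian group `A` and a block `B'`
of the wreath product `G ≀ A` (regular action) which is stable under all automorphisms of `ℂ`, with
defect groups isomorphic to the direct powers `D ^ A` of those of `B`, with `l(B') = l(B) ^ |A|` and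
`w(B') = w(B) ^ |A|`, where `w` is the number of classes of weights. So the weight conjecture holds
for `B` if and only if it holds for `B'`.

Let `X` be a class of groups closed under isomorphism and finite direct powers (for instance all
groups, or all abelian groups) and let `Y` be a class of finite groups closed under wreath products
with finite abelian groups in their regular action (for instance all finite groups, or the groups with
nonabelian composition factors in a given set).
(2) Let `m` be a natural number which is not a power of `p`. If `l(B) ≡ w(B)` modulo `m` for all `G` in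
`Y` and all `p`-blocks `B` of `G` which are stable under all automorphisms of `ℂ` and have a defect
group in `X`, then `l(B) = w(B)` for all `G` in `Y` and all `p`-blocks `B` of `G` with a defect group
in `X`.
(3) If for every `n` there is a constant `K` with `l(B) ^ n ≤ K w(B) ^ n |G|` for all `G` in `Y` and
all `p`-blocks `B` of `G` which are stable under all automorphisms of `ℂ` and have a defect group in
`X`, then `l(B) ≤ w(B)` for all `G` in `Y` and all `p`-blocks `B` of `G` with a defect group in `X`.
(4) The same with the roles of `l` and `w` exchanged. -/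
theorem result (p : ℕ) [Fact p.Prime] (O : ValuationSubring ℂ) (hO : (p : ℂ) ∈ O.nonunits) :
    (∀ (G : Type) [Group G] [Fintype G] (B : Set (G → ℂ)), IsBlock O B →
      ∃ (A : Type) (_ : CommGroup A) (_ : Fintype A) (B' : Set (WreathRegular G A → ℂ)),
        IsBlock O B' ∧ IsRational B' ∧
        (∀ D : Subgroup G, IsDefectGroup p O B D → ∃ D' : Subgroup (WreathRegular G A),
          IsDefectGroup p O B' D' ∧ Nonempty (D' ≃* (A → D))) ∧
        lB p B' = lB p B ^ Fintype.card A ∧ nW p O B' = nW p O B ^ Fintype.card A ∧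
        (lB p B = nW p O B ↔ lB p B' = nW p O B')) ∧
    ∀ (X Y : ∀ (P : Type) [Group P], Prop),
      (∀ (P Q : Type) [Group P] [Group Q], Nonempty (P ≃* Q) → X P → X Q) →
      (∀ (P : Type) [Group P] (n : ℕ), 1 ≤ n → X P → X (Fin n → P)) →
      (∀ (G A : Type) [Group G] [CommGroup A] [Finite G] [Finite A], Y G →
        Y (WreathRegular G A)) →
      (∀ m : ℕ, (∀ k, m ≠ p ^ k) →
        (∀ (G : Type) [Group G] [Finite G], Y G → ∀ (B : Set (G → ℂ)) (D : Subgroup G),
          IsBlock O B → IsDefectGroup p O B D → IsRational B → X D →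
          (lB p B : ℤ) ≡ nW p O B [ZMOD m]) →
        ∀ (G : Type) [Group G] [Finite G], Y G → ∀ (B : Set (G → ℂ)) (D : Subgroup G),
          IsBlock O B → IsDefectGroup p O B D → X D → lB p B = nW p O B) ∧
      ((∀ n : ℕ, ∃ K : ℕ, ∀ (G : Type) [Group G] [Finite G], Y G → ∀ (B : Set (G → ℂ))
          (D : Subgroup G), IsBlock O B → IsDefectGroup p O B D → IsRational B → X D →
          lB p B ^ n ≤ K * (nW p O B ^ n * Nat.card G)) →
        ∀ (G : Type) [Group G] [Finite G], Y G → ∀ (B : Set (G → ℂ)) (D : Subgroup G),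
          IsBlock O B → IsDefectGroup p O B D → X D → lB p B ≤ nW p O B) ∧
      ((∀ n : ℕ, ∃ K : ℕ, ∀ (G : Type) [Group G] [Finite G], Y G → ∀ (B : Set (G → ℂ))
          (D : Subgroup G), IsBlock O B → IsDefectGroup p O B D → IsRational B → X D →
          nW p O B ^ n ≤ K * (lB p B ^ n * Nat.card G)) →
        ∀ (G : Type) [Group G] [Finite G], Y G → ∀ (B : Set (G → ℂ)) (D : Subgroup G),
          IsBlock O B → IsDefectGroup p O B D → X D → nW p O B ≤ lB p B) := by
  refine ⟨?_, ?_⟩
  · intro G _ _ B hB
    obtain ⟨A, i1, i2, β, -, h1, h2, -, h3, h4, h5⟩ := Pool.Agent.Q17.RB.p_rwt G p O hO B hB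
    refine ⟨A, i1, i2, Pool.Agent.Q17.RB.FX β, h1, fun s χ => h2 s χ, fun D hD =>
      ⟨Pool.Agent.Q17.RB.Da A D, h3 D hD, ⟨Pool.Agent.Q17.AM.eDa D⟩⟩, h4, h5, ?_⟩
    rw [h4, h5]
    exact (Nat.pow_left_injective Fintype.card_ne_zero).eq_iff.symm
  · intro X Y hX hX' hY
    have hC : ∀ (r : ℕ) [Fact r.Prime], p ≠ r → ∀ (G : Type) [Group G] [Fintype G]
        (D : Subgroup G), ((Finite G → Y G) ∧ X D) →
        ((Finite (Pool.Agent.Q17.AM.Wc G r) → Y (Pool.Agent.Q17.AM.Wc G r)) ∧
          X (Pool.Agent.Q17.AM.Dw r D)) := by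
      rintro r _ _ G _ _ D ⟨h2, h3⟩
      have : NeZero r := ⟨(Fact.out : r.Prime).ne_zero⟩
      refine ⟨fun _ => hY G (Multiplicative (ZMod r)) (h2 inferInstance),
        hX _ _ ⟨(Pool.Agent.Q17.AM.eDw D).symm⟩ ?_⟩
      exact Pool.Agent.Q17.AM.Cl.fun (X := X) ⟨hX, hX'⟩ h3
    have hC' : ∀ (G : Type) [Group G] [Fintype G] (D : Subgroup G) (A : Type) [CommGroup A]
        [Fintype A], ((Finite G → Y G) ∧ X D) →
        ((Finite (Pool.Agent.Q17.WR.Wr G A A) → Y (Pool.Agent.Q17.WR.Wr G A A)) ∧
          X (Pool.Agent.Q17.RB.Da A D)) := by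
      rintro G _ _ D A _ _ ⟨h2, h3⟩
      refine ⟨fun _ => hY G A (h2 inferInstance), hX _ _ ⟨(Pool.Agent.Q17.AM.eDa D).symm⟩ ?_⟩
      exact Pool.Agent.Q17.AM.Cl.fun (X := X) ⟨hX, hX'⟩ h3
    refine ⟨?_, ?_, ?_⟩
    · intro m hm h G _ _ hG B D hB hD hXD
      obtain ⟨r, hr, hrm, hpr⟩ := Pool.Agent.Q17.AM.exists_prime hm
      have hrF : Fact r.Prime := ⟨hr⟩
      have hF : Fintype G := Fintype.ofFinite G
      refine Pool.Agent.Q17.RB.bw_all hpr hO (fun G _ D => (Finite G → Y G) ∧ X D) (hC r hpr) hC'
        ?_ G B D hB hD ⟨fun _ => hG, hXD⟩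
      rintro G _ _ B D hB hD hg ⟨h2, h3⟩
      exact (Int.natCast_dvd_natCast.mpr hrm).trans
        (h G (h2 inferInstance) B D hB hD hg h3).symm.dvd
    · intro h G _ _ hG B D hB hD hXD
      have hF : Fintype G := Fintype.ofFinite G
      refine Pool.Agent.Q17.RB.grow_all hO true (fun G _ D => (Finite G → Y G) ∧ X D)
        (fun r _ hpr => hC r hpr) hC' (fun n => ?_) G B D hB hD ⟨fun _ => hG, hXD⟩
      obtain ⟨K, hK⟩ := h n
      exact ⟨K, fun G _ _ B D hB hD hg hc => hK G (hc.1 inferInstance) B D hB hD hg hc.2⟩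
    · intro h G _ _ hG B D hB hD hXD
      have hF : Fintype G := Fintype.ofFinite G
      refine Pool.Agent.Q17.RB.grow_all hO false (fun G _ D => (Finite G → Y G) ∧ X D)
        (fun r _ hpr => hC r hpr) hC' (fun n => ?_) G B D hB hD ⟨fun _ => hG, hXD⟩
      obtain ⟨K, hK⟩ := h n
      exact ⟨K, fun G _ _ B D hB hD hg hc => hK G (hc.1 inferInstance) B D hB hD hg hc.2⟩

end Pool.Agent.Results.MP_78bba1_al.RationalBlocks
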