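import Pool.Agent.Q18.K.Awc

/-!
# The blockwise weight conjecture in terms of `p`-rational characters
-/

open scoped Classical

noncomputable section

namespace Pool.Agent.Results.MP_78bba1_al.RationalChainSums

open Pool.Agent.Y63.NV
open Pool.Agent.Y63.AWC (IsIrreducibleCharacter)
open Pool.Agent.Y63.KR (alternatingSum)

/-- The values of `χ` lie in a cyclotomic field `ℚ(ζ_k)` with `k` prime to `p` if `p` is odd (`χ` is
`p`-rational), and in `ℚ(ζ_{4k})` with `k` odd if `p = 2`. -/
def IsRat (p : ℕ) {H : Type} (χ : H → ℂ) : Prop :=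
  ∃ k : ℕ, ¬ p ∣ k ∧ ∀ x, χ x ∈ IntermediateField.adjoin ℚ
    {Complex.exp (2 * Real.pi * Complex.I / (k * (if p = 2 then 4 else 1) : ℕ))}

/-- The number of the irreducible characters `χ` of the subgroup `H` of `G` in blocks which induce
the block `B` of `G` and which satisfy `IsRat`. -/
def numRat (p : ℕ) {F : Type} [Field F] (red : integralClosure ℤ ℂ →+* F) {G : Type} [Group G]
    (H : Subgroup G) (B : (G → F) → F) : ℕ :=
  Nat.card {χ : H → ℂ // IsIrreducibleCharacter χ ∧ IsRat p χ ∧
    ∀ f : G → F, IsClassFun f → centralValue red χ (fun x => f x) = B f}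

/-- `∑_σ (-1)^|σ| k_rat(B_σ) = z(B)` for all blocks `B` of `G`: the sum is over representatives of the
classes of chains `σ` of nontrivial `p`-subgroups, the empty chain included, `k_rat(B_σ)` is the
number of the irreducible characters of the stabiliser of `σ` in blocks inducing `B` which satisfy
`IsRat`, and `z(B)` is the number of irreducible characters of defect zero in `B`. -/
def RationalSums (p : ℕ) {F : Type} [Field F] (red : integralClosure ℤ ℂ →+* F) (G : Type)
    [Group G] : Prop :=
  ∀ B : (G → F) → F, IsBlock B →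
    alternatingSum p G (fun H => (numRat p red H B : ℤ)) = numDzBlock p red B

/-- Let `X` be a class of finite groups closed under isomorphisms, subgroups and quotients by normal
`p`-subgroups. The following are equivalent:
1. the blockwise Alperin weight conjecture for all groups in `X`;
2. the equality of `RationalSums` for the groups in `X` without normal subgroups of index `p` and
  without non-trivial normal `p`-subgroups;
3. both for all finite groups with a normal subgroup in `X` of `p`-power index. -/
theorem result (p : ℕ) [Fact p.Prime] (F : Type) [Field F] [IsAlgClosed F] [CharP F p]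
    (red : integralClosure ℤ ℂ →+* F) (X : ∀ (H : Type) [Group H], Prop) (hX : Closed p X) :
    List.TFAE [
      ∀ (H : Type) [Group H] [Finite H], X H → BAWC p red H,
      ∀ (H : Type) [Group H] [Finite H], X H → Reduced p H → RationalSums p red H,
      ∀ (Γ : Type) [Group Γ] [Finite Γ] (G : Subgroup Γ) [G.Normal], X G → IsPGroup p (Γ ⧸ G) →
        BAWC p red Γ ∧ RationalSums p red Γ] := by
  have hp : p.Prime := Fact.out
  obtain ⟨b, hpb, hb⟩ : ∃ b : ℕ, (p ≠ 2 ∨ 2 ≤ b) ∧ (if p = 2 then 4 else 1) = p ^ b := by
    by_cases h : p = 2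
    · exact ⟨2, Or.inr le_rfl, by rw [if_pos h, h]; norm_num⟩
    · exact ⟨0, Or.inl h, by rw [if_neg h, pow_zero]⟩
  have key : ∀ (G : Type) [Group G] [Finite G], KRB p red G ↔ RationalSums p red G := by
    intro G _ _
    rw [Pool.Agent.Q18.K.krb_iff (b := b) hpb red]
    unfold RationalSums
    refine forall₂_congr fun B _ => ?_
    have h1 : ∀ H : Subgroup G, numRat p red H B = Pool.Agent.Q18.K.numQ red B
        (fun S => ∃ k : ℕ, ¬ p ∣ k ∧
          ∀ a ∈ S, a ∈ IntermediateField.adjoin ℚ {Pool.Agent.Q18.K.zt (k * p ^ b)}) H := by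
      intro H
      unfold numRat Pool.Agent.Q18.K.numQ
      refine Nat.card_congr (Equiv.subtypeEquivRight fun χ => and_congr_right fun _ =>
        and_congr_left fun _ => ?_)
      simp only [Set.forall_mem_range]
      unfold IsRat
      rw [hb]
      rfl
    simp only [h1]
  tfae_have 1 → 2 := fun h H _ _ hH _ =>
    (key H).1 (Pool.Agent.Q18.K.krb_all red X hX h H hH)
  tfae_have 2 → 3 := fun h Γ _ _ G _ hG hpG => by
    have h1 := Pool.Agent.Q18.K.bawc_all red X hX
      (fun H _ _ hH hR => (key H).2 (h H hH hR)) Γ G hG hpG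
    exact ⟨h1.1, (key Γ).1 h1.2⟩
  tfae_have 3 → 1 := fun h H _ _ hH =>
    (h H ⊤ (hX.iso _ _ hH ⟨Subgroup.topEquiv.symm⟩) (pgroup_top p H)).1
  tfae_finish

end Pool.Agent.Results.MP_78bba1_al.RationalChainSums
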