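import Pool.Agent.Q17.DC.All4

/-!
# Alperin's weight conjecture relative to a normal subgroup

`N` is a normal subgroup of an arbitrary finite group `G` and `y` is a `p`-element of order `p`
modulo `N` which is central modulo `N`. The hypothesis is on the centralisers in `N` of the
`p`-elements of the coset `yN` only. If the centre of a defect group `D` of the block `B` of `G` meets
`N⟨y⟩` outside `N` then there is exactly one block `b` of `H` with `b^G = B`, it has the defect group
`D`, and `B` and `b` have the same number of irreducible Brauer characters and the same number of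
classes of weights. So the weight conjecture holds for `B` if and only if it holds for `b`; it holds
if `D` is normal in `H`.

From `Pool.Agent.Q17.DC.Stm4`: `lB p B` is the dimension of the space spanned by the restrictions to
the `p`-regular elements of the characters in `B` (the rank of the decomposition matrix, the number
`l(B)` of irreducible Brauer characters in `B`); `IsWt p O B Q φ` says that `(Q, φ)` is a weight of
`B` (`Q` is a `p`-subgroup and `φ` an irreducible character of `N_G(Q)/Q` of defect zero in a block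
which induces `B`), and `nW p O B` is the number of the conjugacy classes of the weights of `B`.
-/

open scoped Classical
open Pool.Agent.H254R3.IN Pool.Agent.Q17.DC

namespace Pool.Agent.Results.MP_78bba1_al.RelativeWeights

/-- The hypotheses on `(G, N, y, P, H)`: `y ∈ P` has order `p` modulo `N` and is central modulo `N`;
`H` contains the Sylow `p`-subgroup `P` and `C_N(x)` for all `x ∈ P ∩ yN`, and `G = NH`. -/
def Hyp {G : Type} [Group G] (p : ℕ) (N : Subgroup G) (y : G) (P : Sylow p G) (H : Subgroup G) :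
    Prop :=
  (y ∈ P ∧ y ∉ N ∧ y ^ p ∈ N ∧ ∀ g : G, g * y * g⁻¹ * y⁻¹ ∈ N) ∧
    (P : Subgroup G) ≤ H ∧ (∀ g : G, ∃ n ∈ N, ∃ h ∈ H, g = n * h) ∧
    ∀ x ∈ P, y⁻¹ * x ∈ N → ∀ n ∈ N, Commute n x → n ∈ H

/-- The block `b` of the subgroup `H` induces the block `B` of `G`:
`λ_B(K⁺) = λ_b((K ∩ H)⁺)` for the class `K` of every `x`. -/
def Induces {G : Type} [Group G] (O : ValuationSubring ℂ) (B : Set (G → ℂ)) {H : Subgroup G}
    (b : Set (H → ℂ)) : Prop :=
  ∀ χ ∈ B, ∀ θ ∈ b, ∀ x : G,
    omega χ x - ∑ᶠ y : {y : H // IsConj x (y : G)}, θ y / θ 1 ∈ O.nonunits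

/-- **Theorem.** Let `G` be a finite group, `N` a normal subgroup, `P` a Sylow `p`-subgroup of `G`
and `y ∈ P ∖ N` with `y ^ p ∈ N` and `[G, y] ≤ N` (so `G / N` is arbitrary, with a central subgroup
of order `p`). Let `H ≥ P` be a subgroup with `G = NH` and `C_N(x) ≤ H` for all `x ∈ P ∩ yN`. Let `B`
be a `p`-block of `G` with a defect group `D ≤ H` (every block has one) whose centre contains an
element of `N⟨y⟩ ∖ N`. Then there is a block `b` of `H` such that
(1) `b^G = B` and `D` is a defect group of `b`, and `b` is the only block of `H` with `b^G = B`;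
(2) `l(B) = l(b)`;
(3) `B` and `b` have the same number of conjugacy classes of weights;
(4) the weight conjecture holds for `B` if and only if it holds for `b`;
(5) if `D` is normal in `H` then the weight conjecture holds for `B`. -/
theorem result (G : Type) [Group G] [Fintype G] (p : ℕ) [hp : Fact p.Prime] (N H : Subgroup G)
    [N.Normal] (P : Sylow p G) (y : G) (hyp : Hyp p N y P H) (O : ValuationSubring ℂ)
    (hO : (p : ℂ) ∈ O.nonunits) (B : Set (G → ℂ)) (hB : IsBlock O B) (D : Subgroup G)
    (hDH : D ≤ H) (hD : IsDefectGroup p O B D)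
    (hz : ∃ z ∈ D, (∀ x ∈ D, Commute z x) ∧ z ∈ N ⊔ Subgroup.zpowers y ∧ z ∉ N) :
    ∃ b : Set (H → ℂ), IsBlock O b ∧ Induces O B b ∧ IsDefectGroup p O b (D.subgroupOf H) ∧
      (∀ b' : Set (H → ℂ), IsBlock O b' → Induces O B b' → b' = b) ∧
      lB p B = lB p b ∧ nW p O B = nW p O b ∧ (lB p B = nW p O B ↔ lB p b = nW p O b) ∧
      ((D.subgroupOf H).Normal → lB p B = nW p O B) := by
  have td : Pool.Agent.Q17.TC.TD p N y H P := ⟨inferInstance, hyp.1.2.1, hyp.1.2.2.1,
    hyp.1.2.2.2, hyp.1.1, hyp.2.1, hyp.2.2.1, hyp.2.2.2⟩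
  have hN : N.Normal := inferInstance
  obtain ⟨z, hz, hzc, hzK, hzN⟩ := hz
  obtain ⟨⟨b, hb, hbi⟩, hbD⟩ := (prt2.unq G p O hO N y H P td B hB).1 D hDH hD
    ⟨z, hz, hzK, hzN⟩
  have hg : Gd p O N (Pool.Agent.Q17.TC.KK N y) B :=
    @good_of_defect G _ _ (stdQ p O N (Pool.Agent.Q17.TC.KK N y)) hp prt.mmz hO B hB D hD z hz
      hzc hzK hzN
  have h1 : lB p B = lB p b := leq G p O hO N y H P td B hB hg b hb hbi
  have h2 : nW p O B = nW p O b := weq td hO hB hg hb hbi
  refine ⟨b, hb, hbi, hbD, fun b' hb' hi' => uniq td hO hB hg hb' hi' hb hbi, h1, h2, ?_,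
    fun hn => ?_⟩
  · rw [h1, h2]
  · rw [h1, h2]
    exact awc_normal H p O hO b hb _ hbD hn

end Pool.Agent.Results.MP_78bba1_al.RelativeWeights
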