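import Pool.Agent.Q18.LF.Fin2

/-!
# Weights and Brauer characters whose stabilisers are larger than `G`
-/

open scoped Classical

noncomputable section

namespace Pool.Agent.Results.MP_78bba1_al.StableBijections

open Pool.Agent.Y63.NV
open Pool.Agent.Y63.AWC (pSubgroupSetoid)
open Pool.Agent.Q18.EQ (IsWeight mv lab)

/-- the group `N_L(Q)/Q` -/
abbrev Loc {L : Type} [Group L] (Q : Subgroup L) : Type :=
  Subgroup.normalizer (Q : Set L) ⧸ Q.subgroupOf (Subgroup.normalizer (Q : Set L))

/-- `w(b)`: the number of classes of weights of the block `b` of `J` -/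
def numWeights (p : ℕ) {F : Type} [Field F] (red : integralClosure ℤ ℂ →+* F) {J : Type} [Group J]
    (b : (J → F) → F) : ℕ :=
  ∑ᶠ c : Quotient (pSubgroupSetoid p J), numWtBlock p red c.out.1 b

/-- There is a `Γ`-equivariant bijection which preserves the blocks between the `G`-classes of
weights of `G` whose stabiliser in `Γ` is larger than `G` and the irreducible Brauer characters of
`G` whose stabiliser in `Γ` is larger than `G` (`G` normal in `Γ`). It is written as a map `Φ` from
these weights onto the set of these irreducible characters over `F`, whose fibres are the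
`G`-classes, which commutes with the conjugations by the elements of `Γ`, and such that every element
`f` of the centre of `F[G]` acts on `Φ w` as the scalar given by the central character of the block
which the block of `w` induces. -/
def StableBijection (p : ℕ) {F : Type} [Field F] (red : integralClosure ℤ ℂ →+* F)
    {Γ : Type} [Group Γ] (G : Subgroup Γ) [G.Normal] : Prop :=
  ∃ Φ : {w : Subgroup G × (G → ℂ) // IsWeight p w ∧ ∃ γ : Γ, γ ∉ G ∧ ∃ g : G,
        mv (MulAut.conjNormal γ) w = mv (MulAut.conj g) w} →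
      {φ : G → F // IsIrrTrace φ ∧ ∃ γ : Γ, γ ∉ G ∧ ∀ x : G, φ (MulAut.conjNormal γ x) = φ x},
    Function.Surjective Φ ∧
    (∀ w w', Φ w = Φ w' ↔ ∃ g : G, w'.1 = mv (MulAut.conj g) w.1) ∧
    (∀ (γ : Γ) w w', w'.1 = mv (MulAut.conjNormal γ) w.1 →
      ∀ x : G, (Φ w').1 (MulAut.conjNormal γ x) = (Φ w).1 x) ∧
    ∀ w (f : G → F), IsClassFun f → ∀ x : G,
      ∑ᶠ g : G, f g * (Φ w).1 (g * x) = lab red w.1 f * (Φ w).1 x

/-- Let `G` be normal in the finite group `Γ` with `Γ/G` a `p`-group.

1. A `Γ`-equivariant block-preserving bijection between the weights and the irreducible Brauer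
characters of `G` with stabilisers larger than `G` exists if and only if Navarro's equality holds for
all pairs `G < L ≤ Γ`. It exists if the blockwise Knörr-Robinson equality holds for all groups
`N_L(Q)/Q`, `G < L ≤ Γ`, `Q` a `p`-subgroup with `G Q = L`. If it exists, then for every block `b` of
`G` the number `l(b)` of irreducible Brauer characters and the number `w(b)` of classes of weights
are congruent modulo `|L : G|`, for every subgroup `L ≥ G` of `Γ` which fixes `b`.

2. If `|Γ : G| = p` and Navarro's equality holds for `(G, Γ)`, then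
`l(b) - w(b) = p (l(B) - w(B))` for every `Γ`-invariant block `b` of `G` and the block `B` of `Γ`
covering `b`; and the blockwise weight conjecture holds for `Γ` if and only if it holds for `G`.

3. (No hypothesis on weights.) If the intersection of any two distinct Sylow `p`-subgroups of `Γ` is
contained in `G`, then the bijection of 1. exists, and the blockwise weight conjecture holds for `Γ`
if and only if it holds for `G`. -/
theorem result (p : ℕ) [Fact p.Prime] (F : Type) [Field F] [IsAlgClosed F] [CharP F p]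
    (red : integralClosure ℤ ℂ →+* F) :
    (∀ (Γ : Type) [Group Γ] [Finite Γ] (G : Subgroup Γ) [G.Normal], IsPGroup p (Γ ⧸ G) →
      ((∀ L : Subgroup Γ, G < L → NavarroTheta p red (G.subgroupOf L)) ↔
        StableBijection p red G) ∧
      ((∀ L : Subgroup Γ, G < L → ∀ Q : Subgroup L, IsPGroup p Q → G.subgroupOf L ⊔ Q = ⊤ →
        KRB p red (Loc Q)) → StableBijection p red G) ∧
      (StableBijection p red G → ∀ b : (G → F) → F, IsBlock b → ∀ L : Subgroup Γ,
        (∀ γ ∈ L, ∀ f : G → F, IsClassFun f → b (fun x => f (MulAut.conjNormal γ x)) = b f) →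
        (numIrrBlock b : ℤ) ≡ numWeights p red b [ZMOD G.relIndex L])) ∧
    (∀ (Γ : Type) [Group Γ] [Finite Γ] (G : Subgroup Γ) [G.Normal], Nat.card (Γ ⧸ G) = p →
      NavarroTheta p red G →
      (∀ (b : (G → F) → F) (B : (Γ → F) → F), IsBlock b → IsInvBlock G b → IsBlock B →
        (∀ z : Γ → F, InZ G z → B z = b (fun x : G => z x)) →
        (numIrrBlock b : ℤ) - numWeights p red b =
          p * ((numIrrBlock B : ℤ) - numWeights p red B)) ∧
      (BAWC p red Γ ↔ BAWC p red G)) ∧
    (∀ (Γ : Type) [Group Γ] [Finite Γ] (G : Subgroup Γ) [G.Normal], IsPGroup p (Γ ⧸ G) →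
      (∀ P₁ P₂ : Sylow p Γ, P₁ ≠ P₂ → (P₁ : Subgroup Γ) ⊓ (P₂ : Subgroup Γ) ≤ G) →
      StableBijection p red G ∧ (BAWC p red Γ ↔ BAWC p red G)) := by
  refine ⟨fun Γ _ _ G _ hp => ⟨Pool.Agent.Q18.LF.stBij_of_nav red hp, fun h => ?_,
    fun h b hb L hL => Pool.Agent.Q18.LF.cong_of red hp h hb L hL⟩,
    fun Γ _ _ G _ hc hN => ⟨?_, ?_⟩, fun Γ _ _ G _ hp hT => ⟨?_, ?_⟩⟩
  · refine (Pool.Agent.Q18.LF.stBij_of_nav red hp).1 fun L hL => ?_
    have h1 : G.subgroupOf L ≠ ⊤ := fun h2 =>
      absurd (Subgroup.subgroupOf_eq_top.1 h2) (not_le_of_gt hL)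
    exact Pool.Agent.Q18.LF.crit red h1 (Pool.Agent.Q18.EQ.pgroup_sub hp) fun Q hQ hGQ =>
      h L hL Q hQ hGQ
  · intro b B hb hbi hB hbB
    exact Pool.Agent.Q18.NB.pbl p F red Γ G hc ((theta_iff p F red Γ G).1 hN) b B hb hbi hB hbB
  · exact Pool.Agent.Q18.NB.pbi p F red Γ G hc ((theta_iff p F red Γ G).1 hN)
  · exact (Pool.Agent.Q18.LF.stBij_of_nav red hp).1 fun L hL =>
      Pool.Agent.Q18.LF.nav_ti red hp hT L hL
  · obtain ⟨n, hn⟩ := IsPGroup.iff_card.1 hp
    exact Pool.Agent.Q18.LF.bawc_ti red n Γ G hn hT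

end Pool.Agent.Results.MP_78bba1_al.StableBijections
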